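import Pool.Agent.R944.Tysz.Sys

/-!
# Unique solutions of systems of equations `x_i = 1`, `x_i + x_j = x_k`

If such a system in `n` unknowns has exactly one complex solution, then every coordinate of the
solution is a rational number whose numerator and denominator in lowest terms are at most
`2 ^ (n - 1)` in absolute value.

Idea. The coefficient row `e_i + e_j - e_k` is the sum of the row `e_i` and the row `e_j - e_k`; a
square matrix whose rows have at most one entry `1`, at most one entry `-1` and zeros otherwise has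
determinant `0`, `1` or `-1`. So, once a unit row is present, all the minors of order `r` in Cramer's
rule (those with a column replaced by the right-hand side included) are at most `2 ^ (r - 1)`.
-/

set_option autoImplicit false

open Pool.Agent.R944.Tysz

namespace Pool.Agent.Results.MP_555c3f_al.NumeratorDenominator

/-- The equations of `W_n`: `Sum.inl i` is the equation `x_i = 1`, and `Sum.inr (i, j, k)` with
`i ≤ j` is the equation `x_i + x_j = x_k`. -/
abbrev Eqn (n : ℕ) : Type := Fin n ⊕ {t : Fin n × Fin n × Fin n // t.1 ≤ t.2.1}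

/-- `Holds x e`: the tuple `x` of complex numbers satisfies the equation `e`. -/
def Holds {n : ℕ} (x : Fin n → ℂ) : Eqn n → Prop
  | .inl i => x i = 1
  | .inr t => x t.1.1 + x t.1.2.1 = x t.1.2.2

/-- `IsSolution S x`: the tuple `x` of complex numbers satisfies all the equations of the system
`S ⊆ W_n`. -/
def IsSolution {n : ℕ} (S : Set (Eqn n)) (x : Fin n → ℂ) : Prop := ∀ e ∈ S, Holds x e

/-- **Q1, affirmative.** Let `S ⊆ W_n` be a system with exactly one solution `x` in `ℂ ^ n`. Then
every coordinate `x_i` is a rational number whose numerator and denominator (in lowest terms) are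
at most `2 ^ (n - 1)` in absolute value. -/
theorem result (n : ℕ) (S : Set (Eqn n)) (x : Fin n → ℂ) (hx : IsSolution S x)
    (huniq : ∀ y : Fin n → ℂ, IsSolution S y → y = x) (i : Fin n) :
    ∃ r : ℚ, x i = (r : ℂ) ∧ |r.num| ≤ 2 ^ (n - 1) ∧ r.den ≤ 2 ^ (n - 1) := by
  let a : S → Fin n → ℤ := fun e =>
    match e.1 with
    | .inl i => rowU i
    | .inr t => rowA t.1.1 t.1.2.1 t.1.2.2
  let b : S → ℤ := fun e =>
    match e.1 with
    | .inl _ => 1
    | .inr _ => 0
  have hgood : ∀ e, Good (a e) (b e) := by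
    rintro ⟨e, he⟩
    rcases e with i | t
    · exact good_rowU i
    · exact good_rowA _ _ _
  have hiff : ∀ y : Fin n → ℂ, IsSolution S y ↔ ∀ e : S, ∑ k, (a e k : ℂ) * y k = b e := by
    intro y
    constructor
    · rintro h ⟨e, he⟩
      have h1 := h e he
      rcases e with i | t
      · show ∑ k, ((rowU i k : ℤ) : ℂ) * y k = ((1 : ℤ) : ℂ)
        rw [eval_rowU]
        have h2 : y i = 1 := h1
        rw [h2]; simp
      · show ∑ k, ((rowA t.1.1 t.1.2.1 t.1.2.2 k : ℤ) : ℂ) * y k = ((0 : ℤ) : ℂ)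
        rw [eval_rowA]
        have h2 : y t.1.1 + y t.1.2.1 = y t.1.2.2 := h1
        rw [h2]; simp
    · intro h e he
      have h1 := h ⟨e, he⟩
      rcases e with i | t
      · have h2 : ∑ k, ((rowU i k : ℤ) : ℂ) * y k = ((1 : ℤ) : ℂ) := h1
        rw [eval_rowU] at h2
        show y i = 1
        rw [h2]; simp
      · have h2 : ∑ k, ((rowA t.1.1 t.1.2.1 t.1.2.2 k : ℤ) : ℂ) * y k = ((0 : ℤ) : ℂ) := h1
        rw [eval_rowA] at h2
        show y t.1.1 + y t.1.2.1 = y t.1.2.2
        have h3 : y t.1.1 + y t.1.2.1 - y t.1.2.2 = 0 := by rw [h2]; simp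
        exact sub_eq_zero.1 h3
  obtain ⟨D, p, hD, hDb, hpb, hsol⟩ := rational_main a b x ((hiff x).1 hx) hgood
  have hDC : (D : ℂ) ≠ 0 := by exact_mod_cast hD
  have hy : (fun k => (p k : ℂ) / (D : ℂ)) = x := by
    apply huniq
    rw [hiff]
    intro e
    have h1 : ∑ k, (a e k : ℂ) * (p k : ℂ) = (D : ℂ) * b e := by exact_mod_cast hsol e
    have h2 : ∑ k, (a e k : ℂ) * ((p k : ℂ) / (D : ℂ)) = (∑ k, (a e k : ℂ) * (p k : ℂ)) / (D : ℂ) := by
      rw [Finset.sum_div]
      exact Finset.sum_congr rfl fun k _ => by ring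
    rw [h2, h1]
    field_simp
  refine ⟨(p i : ℚ) / (D : ℚ), ?_, ?_, ?_⟩
  · rw [← hy]; push_cast; rfl
  · have h1 : ((p i : ℚ) / (D : ℚ)).num ∣ p i := by
      have := Rat.num_dvd (p i) (b := D) hD
      rwa [Rat.divInt_eq_div] at this
    by_cases h0 : p i = 0
    · rw [h0]; simp
    · have h2 : |((p i : ℚ) / (D : ℚ)).num| ≤ |p i| := by
        have := Int.le_of_dvd (abs_pos.2 h0) ((abs_dvd_abs _ _).2 h1)
        exact this
      exact le_trans h2 (hpb i)
  · have h1 : ((((p i : ℚ) / (D : ℚ)).den : ℕ) : ℤ) ∣ D := by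
      have := Rat.den_dvd (p i) D
      rwa [Rat.divInt_eq_div] at this
    have h2 : ((((p i : ℚ) / (D : ℚ)).den : ℕ) : ℤ) ≤ |D| := by
      have h3 : ((((p i : ℚ) / (D : ℚ)).den : ℕ) : ℤ) ∣ |D| := (dvd_abs _ _).2 h1
      exact Int.le_of_dvd (abs_pos.2 hD) h3
    exact_mod_cast le_trans h2 hDb

end Pool.Agent.Results.MP_555c3f_al.NumeratorDenominator
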